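import Mathlib.Computability.DFA
import Mathlib.Data.List.Shortlex
import Mathlib.Algebra.Polynomial.Div
import Mathlib.LinearAlgebra.Matrix.SpecialLinearGroup
import Mathlib.LinearAlgebra.Matrix.Notation
import Mathlib.Tactic

/-!
# An Anosov matrix that is recognizable in no Nies-Semukhin presentation
-/

namespace Pool.Agent.Results.MP_334179_al.AnosovMatrix

open Polynomial

/-- The digits `-(|q|-1), …, |q|-1`. -/
abbrev Dig (q : ℤ) : Type := {a : ℤ // |a| < |q|}

/-- The polynomial `t = x² + p x - q`. -/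
noncomputable def t (p q : ℤ) : ℤ[X] := X ^ 2 + C p * X - C q

/-- The polynomial `∑ aᵢ xⁱ` encoded by the string `a₀ a₁ …`. -/
noncomputable def poly {q : ℤ} : List (Dig q) → ℤ[X]
  | [] => 0
  | a :: w => C a.1 + X * poly w

/-- Two strings are equivalent if `t` divides the difference of their polynomials. -/
def Equi (p : ℤ) {q : ℤ} (u w : List (Dig q)) : Prop := t p q ∣ poly u - poly w

/-- The domain: the strings that are minimal in their class for the length-lexicographic
order. -/
def Dom (p q : ℤ) : Set (List (Dig q)) :=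
  {w | ∀ u : List (Dig q), List.Shortlex (· < ·) u w → ¬ Equi p u w}

/-- The map `ψ`: the string `w` is sent to `(c₀, c₁)` where `c₀ + c₁ x` is the remainder modulo
`t` of the polynomial of `w`. -/
noncomputable def psi (p q : ℤ) (w : List (Dig q)) : Fin 2 → ℤ :=
  ![(poly w %ₘ t p q).coeff 0, (poly w %ₘ t p q).coeff 1]

/-- The convolution of two strings; `none` is the padding symbol. -/
def conv {α : Type} : List α → List α → List (Option α × Option α)
  | [], [] => []
  | a :: u, [] => (some a, none) :: conv u []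
  | [], b :: v => (none, some b) :: conv [] v
  | a :: u, b :: v => (some a, some b) :: conv u v

/-- A binary relation on strings is FA-recognizable if the language of its convolutions is
regular. -/
def FARecognizable {α : Type} (R : List α → List α → Prop) : Prop :=
  Language.IsRegular ({c | ∃ u v, R u v ∧ c = conv u v} : Language (Option α × Option α))

/-- The matrix `A` is FA-recognizable with respect to `ψ_{p,q}`. -/
def MatRecognizable (p q : ℤ) (A : Matrix (Fin 2) (Fin 2) ℤ) : Prop :=
  FARecognizable (fun u v : List (Dig q) =>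
    u ∈ Dom p q ∧ v ∈ Dom p q ∧ psi p q v = A.mulVec (psi p q u))

/-- The index set of the presentations. -/
def IndexSet : Set (ℤ × ℤ) :=
  {x | 1 + |x.1| < |x.2| ∧ Int.gcd x.1 x.2 = 1 ∧
    (x.1 ^ 2 + 4 * x.2 = -4 ∨ x.1 ^ 2 + 4 * x.2 = -3 ∨ x.1 ^ 2 + 4 * x.2 = 1 ∨
      x.1 ^ 2 + 4 * x.2 = 4 ∨ (0 < x.1 ^ 2 + 4 * x.2 ∧ ¬ IsSquare (x.1 ^ 2 + 4 * x.2)))}

/-! ### The evaluation map in coordinates -/

/-- Multiplication by `x` modulo `t`. -/
def T (p q : ℤ) (z : ℤ × ℤ) : ℤ × ℤ := (q * z.2, z.1 - p * z.2)

/-- The value of a string. -/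
def val (p : ℤ) {q : ℤ} : List (Dig q) → ℤ × ℤ
  | [] => (0, 0)
  | a :: w => (a.1 + (T p q (val p w)).1, (T p q (val p w)).2)

lemma t_monic (p q : ℤ) : (t p q).Monic := by
  unfold t
  monicity!

lemma t_natDegree (p q : ℤ) : (t p q).natDegree = 2 := by
  unfold t
  compute_degree!

lemma t_degree (p q : ℤ) : (t p q).degree = 2 := by
  rw [degree_eq_natDegree (t_monic p q).ne_zero, t_natDegree]; rfl

lemma poly_val (p q : ℤ) (w : List (Dig q)) :
    ∃ s : ℤ[X], poly w = C (val p w).1 + C (val p w).2 * X + t p q * s := by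
  induction w with
  | nil => exact ⟨0, by simp [poly, val]⟩
  | cons a w ih =>
    obtain ⟨s, hs⟩ := ih
    refine ⟨X * s + C (val p w).2, ?_⟩
    rw [poly, hs]
    simp only [val, T, t, map_add, map_sub, map_mul]
    ring

lemma lin_degree (p q a b : ℤ) : (C a + C b * X : ℤ[X]).degree < (t p q).degree := by
  rw [t_degree]
  have h : (C b * X + C a : ℤ[X]).degree ≤ 1 := degree_linear_le
  rw [add_comm]
  exact lt_of_le_of_lt h (by norm_num)

lemma modByMonic_val (p q : ℤ) (w : List (Dig q)) :
    poly w %ₘ t p q = C (val p w).1 + C (val p w).2 * X := by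
  obtain ⟨s, hs⟩ := poly_val p q w
  have := (div_modByMonic_unique s (C (val p w).1 + C (val p w).2 * X) (t_monic p q)
    ⟨hs.symm, lin_degree p q _ _⟩).2
  exact this

lemma lin_coeff (a b : ℤ) : (C a + C b * X : ℤ[X]).coeff 0 = a ∧
    (C a + C b * X : ℤ[X]).coeff 1 = b := by
  constructor
  · rw [coeff_add, coeff_C_zero, coeff_C_mul, coeff_X_zero, mul_zero, add_zero]
  · rw [coeff_add, coeff_C_of_ne_zero (by norm_num), coeff_C_mul, coeff_X_one, mul_one, zero_add]

lemma psi_eq (p q : ℤ) (w : List (Dig q)) : psi p q w = ![(val p w).1, (val p w).2] := by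
  unfold psi
  rw [modByMonic_val, (lin_coeff _ _).1, (lin_coeff _ _).2]

lemma equi_iff (p q : ℤ) (u w : List (Dig q)) : Equi p u w ↔ val p u = val p w := by
  unfold Equi
  constructor
  · intro h
    have h1 : (poly u - poly w) %ₘ t p q = 0 := (modByMonic_eq_zero_iff_dvd (t_monic p q)).mpr h
    rw [sub_modByMonic, modByMonic_val, modByMonic_val, sub_eq_zero] at h1
    have c0 := congrArg (fun f => coeff f 0) h1
    have c1 := congrArg (fun f => coeff f 1) h1
    simp only [(lin_coeff _ _).1, (lin_coeff _ _).2] at c0 c1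
    exact Prod.ext c0 c1
  · intro h
    rw [← modByMonic_eq_zero_iff_dvd (t_monic p q), sub_modByMonic, modByMonic_val,
      modByMonic_val, h, sub_self]

/-! ### Iterating `T` -/

section
variable {p q : ℤ}

/-- A norm that decreases under division by `x`. -/
def nu (z : ℤ × ℤ) : ℕ := (2 * |z.1| + 3 * |z.2|).toNat

lemma T_inj (hq : q ≠ 0) {z z' : ℤ × ℤ} (h : T p q z = T p q z') : z = z' := by
  simp only [T, Prod.mk.injEq] at h
  obtain ⟨h1, h2⟩ := h
  have h3 := mul_left_cancel₀ hq h1
  ext
  · rw [h3] at h2; linarith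
  · exact h3

lemma q_ne (hpq : 1 + |p| < |q|) : q ≠ 0 := by
  rintro rfl
  have := abs_nonneg p
  simp at hpq
  linarith

/-- Each vector is `a + T z'` with a digit `a` and a smaller `z'`. -/
lemma exists_digit (hpq : 1 + |p| < |q|) (z : ℤ × ℤ) (hz : z ≠ 0) :
    ∃ (a : Dig q) (z' : ℤ × ℤ), z = (a.1 + (T p q z').1, (T p q z').2) ∧ nu z' < nu z := by
  have hq := q_ne hpq
  have hq0 : 0 < |q| := abs_pos.mpr hq
  obtain ⟨x, y⟩ := z
  set k := x.tdiv q with hk
  set a := x.tmod q with ha
  have hxa : x = a + q * k := by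
    rw [ha, hk]; exact (Int.tmod_add_mul_tdiv x q).symm
  have hamod : |a| < |q| := by
    rw [ha]
    have h1 := Int.natAbs_tmod x q
    have h2 : x.natAbs % q.natAbs < q.natAbs := Nat.mod_lt _ (Int.natAbs_pos.mpr hq)
    rw [Int.abs_eq_natAbs, Int.abs_eq_natAbs q]
    omega
  have hkq : |q| * |k| + |a| = |x| := by
    have h1 : k.natAbs = x.natAbs / q.natAbs := by
      rw [hk, Int.natAbs_tdiv]; rfl
    have h2 : a.natAbs = x.natAbs % q.natAbs := by
      rw [ha, Int.natAbs_tmod]
    rw [Int.abs_eq_natAbs, Int.abs_eq_natAbs, Int.abs_eq_natAbs, Int.abs_eq_natAbs, h1, h2]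
    exact_mod_cast Nat.div_add_mod x.natAbs q.natAbs
  refine ⟨⟨a, hamod⟩, (y + p * k, k), ?_, ?_⟩
  · simp only [T]
    ext
    · exact hxa
    · simp
  · unfold nu
    simp only
    have ha0 := abs_nonneg a
    have hk0 := abs_nonneg k
    have hy0 := abs_nonneg y
    have hx0 := abs_nonneg x
    have hp0 := abs_nonneg p
    have h1 : |y + p * k| ≤ |y| + |p| * |k| := by
      calc |y + p * k| ≤ |y| + |p * k| := abs_add_le _ _
        _ = |y| + |p| * |k| := by rw [abs_mul]
    have h2 : (|p| + 2) * |k| ≤ |q| * |k| := by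
      apply mul_le_mul_of_nonneg_right _ hk0; linarith
    have h3 : 2 * |y + p * k| + 3 * |k| < 2 * |x| + 3 * |y| := by
      rcases eq_or_lt_of_le hy0 with hy | hy
      · rcases eq_or_lt_of_le hk0 with hk' | hk'
        · have hx : 0 < |x| := by
            rcases eq_or_lt_of_le hx0 with hx | hx
            · exfalso; apply hz
              have e1 : x = 0 := abs_eq_zero.mp hx.symm
              have e2 : y = 0 := abs_eq_zero.mp hy.symm
              rw [e1, e2]; rfl
            · exact hx
          nlinarith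
        · nlinarith
      · nlinarith
    have h4 := abs_nonneg (y + p * k)
    omega

/-- Every vector is the value of a string. -/
lemma exists_string (hpq : 1 + |p| < |q|) : ∀ (n : ℕ) (z : ℤ × ℤ), nu z = n →
    ∃ w : List (Dig q), val p w = z := by
  intro n
  induction n using Nat.strong_induction_on with
  | _ n ih =>
    intro z hn
    by_cases hz : z = 0
    · exact ⟨[], by rw [hz]; rfl⟩
    · obtain ⟨a, z', h1, h2⟩ := exists_digit hpq z hz
      obtain ⟨w, hw⟩ := ih (nu z') (hn ▸ h2) z' rfl
      exact ⟨a :: w, by rw [val, hw]; exact h1.symm⟩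

instance (q : ℤ) : Finite (Dig q) :=
  Set.Finite.to_subtype (s := {a : ℤ | |a| < |q|})
    ((Set.finite_Icc (-|q|) |q|).subset (fun a ha => by
      have := abs_lt.mp (show |a| < |q| from ha)
      exact ⟨this.1.le, this.2.le⟩))

/-- Every vector is the value of exactly one string in the domain. -/
lemma exists_dom (hpq : 1 + |p| < |q|) (z : ℤ × ℤ) : ∃ w ∈ Dom p q, val p w = z := by
  have hwf : WellFounded (List.Shortlex ((· < ·) : Dig q → Dig q → Prop)) :=
    List.Shortlex.wf wellFounded_lt
  obtain ⟨w0, hw0⟩ := exists_string hpq (nu z) z rfl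
  obtain ⟨w, hw, hmin⟩ := hwf.has_min {w | val p w = z} ⟨w0, hw0⟩
  refine ⟨w, fun u hu he => ?_, hw⟩
  rw [equi_iff] at he
  exact hmin u (he.trans hw) hu

lemma dom_unique {u w : List (Dig q)} (hu : u ∈ Dom p q) (hw : w ∈ Dom p q)
    (h : val p u = val p w) : u = w := by
  by_contra hne
  rcases (Std.Trichotomous.rel_or_eq_or_rel_swap (r := List.Shortlex ((· < ·) : Dig q → Dig q → Prop)) (a := u) (b := w)) with h1 | h1 | h1
  · exact hw u h1 ((equi_iff p q u w).mpr h)
  · exact hne h1
  · exact hu w h1 ((equi_iff p q w u).mpr h.symm)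

/-- The digit zero. -/
def zd (hpq : 1 + |p| < |q|) : Dig q := ⟨0, by
  rw [abs_zero]; exact abs_pos.mpr (q_ne hpq)⟩

lemma val_zero_cons (hpq : 1 + |p| < |q|) (w : List (Dig q)) :
    val p (zd hpq :: w) = T p q (val p w) := by
  rw [val]; simp [zd]

lemma T_zero : T p q (0, 0) = (0, 0) := by simp [T]

lemma T_ne_zero (hq : q ≠ 0) {z : ℤ × ℤ} (hz : z ≠ (0, 0)) : T p q z ≠ (0, 0) := by
  intro h
  apply hz
  apply T_inj (p := p) hq
  rw [h, T_zero]

lemma cons_zero_mem (hpq : 1 + |p| < |q|) {w : List (Dig q)} (hw : w ∈ Dom p q)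
    (h0 : val p w ≠ (0, 0)) : zd hpq :: w ∈ Dom p q := by
  intro u hu he
  rw [equi_iff, val_zero_cons] at he
  cases u with
  | nil =>
    exact T_ne_zero (q_ne hpq) h0 he.symm
  | cons a u =>
    have hq := q_ne hpq
    rw [val] at he
    have h1 : a.1 + (T p q (val p u)).1 = (T p q (val p w)).1 := (Prod.ext_iff.mp he).1
    have h2 : (T p q (val p u)).2 = (T p q (val p w)).2 := (Prod.ext_iff.mp he).2
    have hdvd : q ∣ a.1 := by
      refine ⟨(val p w).2 - (val p u).2, ?_⟩
      simp only [T] at h1
      linarith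
    have ha : a.1 = 0 := Int.eq_zero_of_abs_lt_dvd ((abs_dvd q a.1).mpr hdvd) a.2
    have ha' : a = zd hpq := Subtype.ext ha
    subst ha'
    have h3 : T p q (val p u) = T p q (val p w) := by
      ext
      · simpa [zd] using h1
      · exact h2
    exact hw u (List.Shortlex.of_cons hu) ((equi_iff p q u w).mpr (T_inj hq h3))

lemma replicate_mem (hpq : 1 + |p| < |q|) {w : List (Dig q)} (hw : w ∈ Dom p q)
    (h0 : val p w ≠ (0, 0)) (m : ℕ) :
    List.replicate m (zd hpq) ++ w ∈ Dom p q ∧
      val p (List.replicate m (zd hpq) ++ w) = (T p q)^[m] (val p w) ∧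
      val p (List.replicate m (zd hpq) ++ w) ≠ (0, 0) := by
  induction m with
  | zero => exact ⟨hw, rfl, h0⟩
  | succ m ih =>
    obtain ⟨h1, h2, h3⟩ := ih
    rw [List.replicate_succ, List.cons_append]
    refine ⟨cons_zero_mem hpq h1 h3, ?_, ?_⟩
    · rw [val_zero_cons, h2, Function.iterate_succ_apply']
    · rw [val_zero_cons]; exact T_ne_zero (q_ne hpq) h3

end

/-! ### Convolutions -/

section conv
variable {α : Type}

lemma conv_fst (u v : List α) : (conv u v).filterMap Prod.fst = u := by
  fun_induction conv u v with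
  | case1 => rfl
  | case2 a u ih => simp [ih]
  | case3 b v ih => rw [List.filterMap_cons_none rfl, ih]
  | case4 a u b v ih => simp [ih]

lemma conv_snd (u v : List α) : (conv u v).filterMap Prod.snd = v := by
  fun_induction conv u v with
  | case1 => rfl
  | case2 a u ih => rw [List.filterMap_cons_none rfl, ih]
  | case3 b v ih => simp [ih]
  | case4 a u b v ih => simp [ih]

lemma conv_append (m : ℕ) (a : α) (w v : List α) :
    conv (List.replicate m a ++ w) v =
      (conv (List.replicate m a) (v.take m)) ++ conv w (v.drop m) ∧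
    (conv (List.replicate m a) (v.take m)).length = m := by
  induction m generalizing v with
  | zero => simp [conv]
  | succ m ih =>
    cases v with
    | nil =>
      have := ih []
      simp only [List.take_nil, List.drop_nil] at this
      simp only [List.replicate_succ, List.cons_append, conv, List.take_nil, List.drop_nil,
        this.1, List.length_cons, this.2, and_self]
    | cons b v =>
      have := ih v
      simp only [List.replicate_succ, List.cons_append, conv, List.take_succ_cons,
        List.drop_succ_cons, this.1, List.length_cons, this.2, and_self]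

end conv

section main
variable {p q : ℤ}

lemma val_append (u v : List (Dig q)) :
    ∃ x : ℤ × ℤ, val p (u ++ v) = x + (T p q)^[u.length] (val p v) ∧ x = val p u := by
  induction u with
  | nil => exact ⟨0, by simp, rfl⟩
  | cons a u ih =>
    obtain ⟨x, h1, h2⟩ := ih
    refine ⟨_, ?_, rfl⟩
    rw [List.cons_append, val, h1, h2, val, List.length_cons, Function.iterate_succ_apply']
    simp only [T]
    ext <;> simp <;> ring

/-- The matrix of `T`. -/
def M (p q : ℤ) : Matrix (Fin 2) (Fin 2) ℤ := !![0, q; 1, -p]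

/-- vector of a pair -/
def vec (z : ℤ × ℤ) : Fin 2 → ℤ := ![z.1, z.2]

/-- pair of a vector -/
def pr (v : Fin 2 → ℤ) : ℤ × ℤ := (v 0, v 1)

lemma pr_vec (z : ℤ × ℤ) : pr (vec z) = z := rfl

lemma vec_pr (v : Fin 2 → ℤ) : vec (pr v) = v := by
  ext i; fin_cases i <;> rfl

/-- action of a matrix on pairs -/
def act (A : Matrix (Fin 2) (Fin 2) ℤ) (z : ℤ × ℤ) : ℤ × ℤ :=
  (A 0 0 * z.1 + A 0 1 * z.2, A 1 0 * z.1 + A 1 1 * z.2)

lemma act_eq (A : Matrix (Fin 2) (Fin 2) ℤ) (z : ℤ × ℤ) : A.mulVec (vec z) = vec (act A z) := by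
  ext i
  fin_cases i <;> simp [Matrix.mulVec, dotProduct, vec, act, Fin.sum_univ_two]

lemma act_add (A : Matrix (Fin 2) (Fin 2) ℤ) (z w : ℤ × ℤ) :
    act A (z + w) = act A z + act A w := by
  simp only [act]; ext <;> simp <;> ring

lemma act_sub (A : Matrix (Fin 2) (Fin 2) ℤ) (z w : ℤ × ℤ) :
    act A (z - w) = act A z - act A w := by
  simp only [act]; ext <;> simp <;> ring

lemma act_smul (A : Matrix (Fin 2) (Fin 2) ℤ) (k : ℤ) (z : ℤ × ℤ) :
    act A (k • z) = k • act A z := by
  simp only [act]; ext <;> simp <;> ring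

lemma T_sub (z w : ℤ × ℤ) : T p q (z - w) = T p q z - T p q w := by
  simp only [T]; ext <;> simp <;> ring

lemma T_smul (k : ℤ) (z : ℤ × ℤ) : T p q (k • z) = k • T p q z := by
  simp only [T]; ext <;> simp <;> ring

lemma Tn_sub (n : ℕ) (z w : ℤ × ℤ) :
    (T p q)^[n] (z - w) = (T p q)^[n] z - (T p q)^[n] w := by
  induction n with
  | zero => rfl
  | succ n ih => rw [Function.iterate_succ_apply', ih, T_sub, Function.iterate_succ_apply',
      Function.iterate_succ_apply']

lemma Tn_smul (n : ℕ) (k : ℤ) (z : ℤ × ℤ) :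
    (T p q)^[n] (k • z) = k • (T p q)^[n] z := by
  induction n with
  | zero => rfl
  | succ n ih => rw [Function.iterate_succ_apply', ih, T_smul, Function.iterate_succ_apply']

lemma Tn_inj (hq : q ≠ 0) (n : ℕ) {z w : ℤ × ℤ} (h : (T p q)^[n] z = (T p q)^[n] w) : z = w := by
  induction n with
  | zero => exact h
  | succ n ih =>
    rw [Function.iterate_succ_apply', Function.iterate_succ_apply'] at h
    exact ih (T_inj hq h)

/-- The key consequence of recognizability: bounded denominators. -/
lemma bounded (hpq : 1 + |p| < |q|) {A : Matrix (Fin 2) (Fin 2) ℤ}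
    (hA : MatRecognizable p q A) :
    ∃ D : ℤ, D ≠ 0 ∧ ∀ (m : ℕ) (z : ℤ × ℤ), z ≠ (0, 0) →
      ∃ x : ℤ × ℤ, D • act A ((T p q)^[m] z) = (T p q)^[m] x := by
  classical
  obtain ⟨σ, _, Mt, hM⟩ := hA
  -- domain representatives
  choose W hWdom hWval using exists_dom (p := p) (q := q) hpq
  let z0 := zd hpq
  -- accepted words
  have hacc : ∀ (m : ℕ) (z : ℤ × ℤ), z ≠ (0, 0) →
      conv (List.replicate m z0 ++ W z) (W (act A ((T p q)^[m] z))) ∈ Mt.accepts := by
    intro m z hz
    rw [hM]
    have h1 := replicate_mem hpq (hWdom z) (by rw [hWval]; exact hz) m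
    refine ⟨_, _, ⟨h1.1, hWdom _, ?_⟩, rfl⟩
    rw [psi_eq, psi_eq]
    change vec _ = A.mulVec (vec _)
    rw [act_eq, hWval, h1.2.1, hWval]
  -- the state after `m` letters
  let st : ℕ → (ℤ × ℤ) → σ := fun m z =>
    Mt.eval (conv (List.replicate m z0) ((W (act A ((T p q)^[m] z))).take m))
  have hswap : ∀ (m : ℕ) (z z' : ℤ × ℤ), z ≠ (0, 0) → z' ≠ (0, 0) → st m z = st m z' →
      (W (act A ((T p q)^[m] z))).take m = (W (act A ((T p q)^[m] z'))).take m := by
    intro m z z' hz hz' hst
    set y := W (act A ((T p q)^[m] z)) with hy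
    set y' := W (act A ((T p q)^[m] z')) with hy'
    have h1 := hacc m z' hz'
    rw [← hy', (conv_append m z0 (W z') y').1] at h1
    have h2 : conv (List.replicate m z0) (y.take m) ++ conv (W z') (y'.drop m) ∈ Mt.accepts := by
      rw [DFA.mem_accepts, DFA.eval, DFA.evalFrom_of_append] at h1 ⊢
      change Mt.evalFrom (st m z) _ ∈ Mt.accept
      rw [hst]
      exact h1
    rw [hM] at h2
    obtain ⟨u, v, ⟨hu, hv, huv⟩, he⟩ := h2
    have hu' : u = List.replicate m z0 ++ W z' := by
      have := congrArg (List.filterMap Prod.fst) he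
      rw [conv_fst, List.filterMap_append, conv_fst, conv_fst] at this
      exact this.symm
    have h3 := replicate_mem hpq (hWdom z') (by rw [hWval]; exact hz') m
    have hv' : v = y' := by
      apply dom_unique hv (hWdom _)
      rw [psi_eq, psi_eq] at huv
      change vec _ = A.mulVec (vec _) at huv
      rw [act_eq, hu', h3.2.1, hWval] at huv
      have := congrArg pr huv
      rw [pr_vec, pr_vec] at this
      rw [this, hWval]
    rw [hv', hu', (conv_append m z0 (W z') y').1] at he
    have h4 := (List.append_inj he (by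
      rw [(conv_append m z0 (W z') y).2, (conv_append m z0 (W z') y').2])).1
    have := congrArg (List.filterMap Prod.snd) h4
    rwa [conv_snd, conv_snd] at this
  have hdiff : ∀ (m : ℕ) (z z' : ℤ × ℤ), z ≠ (0, 0) → z' ≠ (0, 0) → st m z = st m z' →
      ∃ x : ℤ × ℤ, act A ((T p q)^[m] z) - act A ((T p q)^[m] z') = (T p q)^[m] x := by
    intro m z z' hz hz' hst
    have htake := hswap m z z' hz hz' hst
    set y := W (act A ((T p q)^[m] z)) with hy
    set y' := W (act A ((T p q)^[m] z')) with hy'
    have hvy : val p y = act A ((T p q)^[m] z) := hWval _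
    have hvy' : val p y' = act A ((T p q)^[m] z') := hWval _
    rw [← hvy, ← hvy']
    by_cases hlen : m ≤ y.length
    · have hlen' : m ≤ y'.length := by
        have := congrArg List.length htake
        rw [List.length_take, List.length_take] at this
        omega
      obtain ⟨x1, e1, e2⟩ := val_append (p := p) (y.take m) (y.drop m)
      obtain ⟨x2, e3, e4⟩ := val_append (p := p) (y'.take m) (y'.drop m)
      rw [List.take_append_drop, List.length_take, min_eq_left hlen] at e1
      rw [List.take_append_drop, List.length_take, min_eq_left hlen'] at e3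
      refine ⟨val p (y.drop m) - val p (y'.drop m), ?_⟩
      rw [e1, e3, e2, e4, htake, Tn_sub]
      abel
    · have hy1 : y.take m = y := List.take_of_length_le (by omega)
      have hlen' : y'.length < m := by
        have := congrArg List.length htake
        rw [List.length_take, List.length_take] at this
        omega
      have hy2 : y'.take m = y' := List.take_of_length_le (by omega)
      rw [hy1, hy2] at htake
      refine ⟨0, ?_⟩
      rw [htake, sub_self]
      have := Tn_smul (p := p) (q := q) m 0 (0, 0)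
      simp only [zero_smul] at this
      exact this.symm
  -- pigeonhole
  refine ⟨((Fintype.card σ).factorial : ℤ), by exact_mod_cast Nat.factorial_ne_zero _, ?_⟩
  intro m z hz
  have hmul : ∀ k : ℕ, ((k : ℤ) + 1) • z ≠ (0, 0) := by
    intro k h
    apply hz
    have h1 := congrArg Prod.fst h
    have h2 := congrArg Prod.snd h
    simp only [Prod.smul_fst, Prod.smul_snd, smul_eq_mul, mul_eq_zero] at h1 h2
    ext
    · rcases h1 with h1 | h1
      · omega
      · exact h1
    · rcases h2 with h2 | h2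
      · omega
      · exact h2
  obtain ⟨i, j, hij, heq⟩ := Fintype.exists_ne_map_eq_of_card_lt
    (fun i : Fin (Fintype.card σ + 1) => st m (((i.1 : ℤ) + 1) • z)) (by simp)
  have key : ∀ i j : Fin (Fintype.card σ + 1), i < j →
      st m (((i.1 : ℤ) + 1) • z) = st m (((j.1 : ℤ) + 1) • z) →
      ∃ x : ℤ × ℤ, ((Fintype.card σ).factorial : ℤ) • act A ((T p q)^[m] z) = (T p q)^[m] x := by
    intro i j hij heq
    obtain ⟨x, hx⟩ := hdiff m _ _ (hmul j) (hmul i) heq.symm
    have hd : (j.1 - i.1) ∣ (Fintype.card σ).factorial := by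
      apply Nat.dvd_factorial
      · have : i.1 < j.1 := hij
        omega
      · have := j.2
        omega
    obtain ⟨c, hc⟩ := hd
    refine ⟨(c : ℤ) • x, ?_⟩
    rw [Tn_smul, ← hx, Tn_smul, Tn_smul, act_smul, act_smul, ← sub_smul, smul_smul]
    congr 1
    rw [hc]
    have : i.1 ≤ j.1 := le_of_lt hij
    push_cast [Nat.cast_sub this]
    ring
  rcases lt_or_gt_of_ne hij with h | h
  · exact key i j h heq
  · exact key j i h heq.symm

/-- Division by `x` decreases the norm. -/
lemma nu_lt_of_T (hpq : 1 + |p| < |q|) {z : ℤ × ℤ} (hz : z ≠ (0, 0)) : nu z < nu (T p q z) := by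
  have hq := q_ne hpq
  obtain ⟨a, z', h1, h2⟩ := exists_digit hpq (T p q z) (T_ne_zero hq hz)
  have h3 : (T p q z).1 = a.1 + (T p q z').1 := (Prod.ext_iff.mp h1).1
  have h4 : (T p q z).2 = (T p q z').2 := (Prod.ext_iff.mp h1).2
  have hdvd : q ∣ a.1 := by
    refine ⟨z.2 - z'.2, ?_⟩
    simp only [T] at h3
    linarith
  have ha : a.1 = 0 := Int.eq_zero_of_abs_lt_dvd ((abs_dvd q a.1).mpr hdvd) a.2
  have h5 : T p q z = T p q z' := by
    ext
    · rw [h3, ha, zero_add]
    · exact h4
  rw [T_inj hq h5]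
  rw [T_inj hq h5] at h2
  exact h2

/-- A sequence with `q k_{m+1} = (p M̄ - q) k_m` has `q^j ∣ k_m` for `m ≥ j`. -/
lemma divis (hq : q ≠ 0) (hg : IsCoprime q p) : ∀ (j : ℕ) (x y : ℕ → ℤ),
    (∀ m, q * x (m + 1) = p * (-p * x m - q * y m) - q * x m) →
    (∀ m, q * y (m + 1) = p * (-x m) - q * y m) →
    (∀ m, q * x m = p * (q * y (m + 1)) - q * x (m + 1)) →
    (∀ m, q * y m = p * (x (m + 1) - p * y (m + 1)) - q * y (m + 1)) →
    ∀ m, j ≤ m → q ^ j ∣ x m ∧ q ^ j ∣ y m := by
  intro j
  induction j with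
  | zero => intro x y _ _ _ _ m _; simp
  | succ j ih =>
    intro x y h1 h2 h3 h4
    have hx : ∀ m, q ∣ x m := by
      intro m
      have : q ∣ p * x m := ⟨-(y (m + 1) + y m), by linarith [h2 m]⟩
      exact hg.dvd_of_dvd_mul_left this
    have hy : ∀ m, q ∣ y (m + 1) := by
      intro m
      obtain ⟨c, hc⟩ := hx (m + 1)
      have : q ∣ p * (p * y (m + 1)) := by
        refine ⟨p * c - y (m + 1) - y m, ?_⟩
        have := h4 m
        rw [hc] at this
        linarith
      exact hg.dvd_of_dvd_mul_left (hg.dvd_of_dvd_mul_left this)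
    choose x' hx' using fun m => hx (m + 1)
    choose y' hy' using hy
    have := ih x' y' ?_ ?_ ?_ ?_
    · intro m hm
      obtain ⟨m, rfl⟩ : ∃ k, m = k + 1 := ⟨m - 1, by omega⟩
      obtain ⟨e1, e2⟩ := this m (by omega)
      rw [hx' m, hy' m, pow_succ', ]
      exact ⟨mul_dvd_mul_left q e1, mul_dvd_mul_left q e2⟩
    · intro m
      have := h1 (m + 1)
      rw [hx', hx', hy'] at this
      apply mul_left_cancel₀ hq
      linarith
    · intro m
      have := h2 (m + 1)
      rw [hx', hy', hy'] at this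
      apply mul_left_cancel₀ hq
      linarith
    · intro m
      have := h3 (m + 1)
      rw [hx', hx', hy'] at this
      apply mul_left_cancel₀ hq
      linarith
    · intro m
      have := h4 (m + 1)
      rw [hx', hy', hy'] at this
      apply mul_left_cancel₀ hq
      linarith

/-- Such a sequence vanishes at `0`. -/
lemma seq_zero (hpq : 1 + |p| < |q|) (hg : IsCoprime q p) (x y : ℕ → ℤ)
    (h1 : ∀ m, q * x (m + 1) = p * (-p * x m - q * y m) - q * x m)
    (h2 : ∀ m, q * y (m + 1) = p * (-x m) - q * y m)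
    (h3 : ∀ m, q * x m = p * (q * y (m + 1)) - q * x (m + 1))
    (h4 : ∀ m, q * y m = p * (x (m + 1) - p * y (m + 1)) - q * y (m + 1)) :
    x 0 = 0 ∧ y 0 = 0 := by
  have hq := q_ne hpq
  have hd := fun m => divis hq hg m x y h1 h2 h3 h4 m le_rfl
  choose u hu using fun m => (hd m).1
  choose v hv using fun m => (hd m).2
  -- `u_m = -M² u_{m+1}`
  have hrec : ∀ m, (u m, v m) = T p q (T p q (-u (m + 1), -v (m + 1))) := by
    intro m
    have e3 := h3 m
    have e4 := h4 m
    rw [hu, hu, hv] at e3
    rw [hv, hu, hv] at e4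
    have hqm : q ^ (m + 1) ≠ 0 := pow_ne_zero _ hq
    simp only [T]
    ext
    · apply mul_left_cancel₀ hqm
      rw [pow_succ] at e3 ⊢
      linarith
    · apply mul_left_cancel₀ hqm
      rw [pow_succ] at e4 ⊢
      linarith
  have hdesc : ∀ m, (u m, v m) ≠ (0, 0) → (u (m + 1), v (m + 1)) ≠ (0, 0) ∧
      nu (u (m + 1), v (m + 1)) < nu (u m, v m) := by
    intro m hm
    have hne : (-u (m + 1), -v (m + 1)) ≠ (0, 0) := by
      intro h
      apply hm
      rw [hrec m, h, T_zero, T_zero]
    constructor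
    · intro h
      apply hne
      simp only [Prod.mk.injEq] at h ⊢
      rw [h.1, h.2]; simp
    · have e1 := nu_lt_of_T hpq hne
      have e2 := nu_lt_of_T hpq (T_ne_zero (p := p) hq hne)
      rw [← hrec m] at e2
      have e3 : nu (-u (m + 1), -v (m + 1)) = nu (u (m + 1), v (m + 1)) := by
        unfold nu; simp
      omega
  have h0 : (u 0, v 0) = (0, 0) := by
    by_contra hne
    have hall : ∀ m, (u m, v m) ≠ (0, 0) ∧ nu (u m, v m) + m ≤ nu (u 0, v 0) := by
      intro m
      induction m with
      | zero => exact ⟨hne, by omega⟩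
      | succ m ih =>
        obtain ⟨a1, a2⟩ := hdesc m ih.1
        exact ⟨a1, by omega⟩
    have := (hall (nu (u 0, v 0) + 1)).2
    omega
  have e1 := hu 0
  have e2 := hv 0
  simp only [Prod.mk.injEq] at h0
  rw [h0.1] at e1
  rw [h0.2] at e2
  simp at e1 e2
  exact ⟨e1, e2⟩

/-- A recognizable matrix commutes with the companion matrix of `t`. -/
theorem commutes (hpq : 1 + |p| < |q|) (hg : Int.gcd p q = 1) {A : Matrix (Fin 2) (Fin 2) ℤ}
    (hA : MatRecognizable p q A) : A 0 1 = q * A 1 0 := by
  have hq := q_ne hpq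
  obtain ⟨D, hD, hbd⟩ := bounded hpq hA
  have hcop : IsCoprime q p := (Int.isCoprime_iff_gcd_eq_one.mpr hg).symm
  -- the columns of `X_m`
  choose X1 hX1 using fun m => hbd m (1, 0) (by simp)
  choose X2 hX2 using fun m => hbd m (0, 1) (by simp)
  -- linear combinations
  have hlin : ∀ (m : ℕ) (a b : ℤ), D • act A ((T p q)^[m] (a, b)) =
      (T p q)^[m] (a • X1 m + b • X2 m) := by
    intro m a b
    have e : ((a, b) : ℤ × ℤ) = a • (1, 0) - (-b) • (0, 1) := by
      ext <;> simp
    have e' : a • X1 m + b • X2 m = a • X1 m - (-b) • X2 m := by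
      rw [neg_smul, sub_neg_eq_add]
    rw [e, e', Tn_sub, Tn_sub, Tn_smul, Tn_smul, Tn_smul, Tn_smul, act_sub, act_smul, act_smul,
      smul_sub, ← hX1, ← hX2, smul_comm D a, smul_comm D (-b)]
  -- `M X_{m+1} = X_m M`
  have hr1 : ∀ m, T p q (X1 (m + 1)) = X2 m := by
    intro m
    apply Tn_inj (p := p) hq m
    rw [← Function.iterate_succ_apply, ← hX1 (m + 1), Function.iterate_succ_apply]
    have : T p q (1, 0) = (0, 1) := by simp [T]
    rw [this, hX2]
  have hr2 : ∀ m, T p q (X2 (m + 1)) = q • X1 m + (-p) • X2 m := by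
    intro m
    apply Tn_inj (p := p) hq m
    rw [← Function.iterate_succ_apply, ← hX2 (m + 1), Function.iterate_succ_apply]
    have : T p q (0, 1) = (q, -p) := by simp [T]
    rw [this, hlin]
  -- coordinates
  let a := fun m => (X1 m).1
  let c := fun m => (X1 m).2
  let b := fun m => (X2 m).1
  let d := fun m => (X2 m).2
  have r1 : ∀ m, q * c (m + 1) = b m := fun m => congrArg Prod.fst (hr1 m)
  have r2 : ∀ m, a (m + 1) - p * c (m + 1) = d m := fun m => congrArg Prod.snd (hr1 m)
  have r3 : ∀ m, q * d (m + 1) = q * a m + (-p) * b m := fun m => congrArg Prod.fst (hr2 m)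
  have r4 : ∀ m, b (m + 1) - p * d (m + 1) = q * c m + (-p) * d m :=
    fun m => congrArg Prod.snd (hr2 m)
  -- the first column of the commutator `X M - M X` is `(b - q c, d - a + p c)`
  have hk := seq_zero hpq hcop (fun m => b m - q * c m) (fun m => d m - a m + p * c m)
    (fun m => by
      have e1 := r1 m; have e2 := r2 m; have e3 := r3 m; have e4 := r4 m
      linear_combination q * e4 + p * e3 - q * e1)
    (fun m => by
      have e1 := r1 m; have e2 := r2 m; have e3 := r3 m; have e4 := r4 m
      linear_combination e3 - q * e2)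
    (fun m => by
      have e1 := r1 m; have e2 := r2 m; have e3 := r3 m; have e4 := r4 m
      linear_combination p * q * e2 + q * e4 - q * e1)
    (fun m => by
      have e1 := r1 m; have e2 := r2 m; have e3 := r3 m; have e4 := r4 m
      linear_combination (-(p ^ 2 + q)) * e2 + e3 - p * e4 + p * e1)
  have hk1 : b 0 - q * c 0 = 0 := hk.1
  have e1 : D • act A (1, 0) = X1 0 := hX1 0
  have e2 : D • act A (0, 1) = X2 0 := hX2 0
  have e3 : D * A 1 0 = c 0 := by
    have := congrArg Prod.snd e1
    simpa [act] using this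
  have e4 : D * A 0 1 = b 0 := by
    have := congrArg Prod.fst e2
    simpa [act] using this
  apply mul_left_cancel₀ hD
  rw [e4]
  have : D * (q * A 1 0) = q * c 0 := by rw [← e3]; ring
  rw [this]
  linarith

end main

/-- There is an Anosov matrix that is FA-recognizable with respect to no Nies-Semukhin
presentation. -/
theorem result : ∃ A : Matrix.SpecialLinearGroup (Fin 2) ℤ,
    2 < |Matrix.trace (A : Matrix (Fin 2) (Fin 2) ℤ)| ∧
    ∀ x ∈ IndexSet, ¬ MatRecognizable x.1 x.2 (A : Matrix (Fin 2) (Fin 2) ℤ) := by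
  refine ⟨⟨!![1, 1; 2, 3], by simp [Matrix.det_fin_two]⟩, ?_, ?_⟩
  · simp [Matrix.trace_fin_two]
  · rintro ⟨p, q⟩ ⟨hpq, hg, -⟩ h
    have := commutes hpq hg h
    simp at this
    omega

end Pool.Agent.Results.MP_334179_al.AnosovMatrix
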